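import Mathlib
import Pool.Agent.H30.PI.ExpL

set_option autoImplicit false

namespace Pool.Agent.Results.MP_cc8356_al.ExponentBound

universe u v

/-- For all `e ≥ 2`, `r`, `n`, `m`, `k` and every finite set `W` of words outside the second derived
subgroup of the free group on countably many letters (that is, no word of `W` is a law of all metabelian
groups) there is `F > 0` such that `x ^ F = 1` for all elements `x` of every group `G` (finite or not,
with any number of generators) in which every `x` is conjugate to `x ^ e` and which has a series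
`1 = N 0 ≤ N 1 ≤ ... ≤ N k = G` of subgroups, `N i` normal in `N (i + 1)`, such that each factor
`N (i + 1) / N i` satisfies a law `w ∈ W`, or is a finite 2-group having all its subgroups generated by
`r` elements, or acts faithfully and linearly on a module with `n` generators over some commutative ring
`R`, or embeds into some ring `A` and satisfies there a multilinear identity of degree at most `m` with
the coefficient 1 at one monomial. -/
theorem result (e r n m k : ℕ) (he : 2 ≤ e) (W : Finset (FreeGroup ℕ))
    (hW : ∀ w ∈ W, w ∉ derivedSeries (FreeGroup ℕ) 2) :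
    ∃ F : ℕ, 0 < F ∧ ∀ (G : Type v) [Group G], (∀ x : G, IsConj x (x ^ e)) →
      ∀ N : ℕ → Subgroup G, N 0 = ⊥ → N k = ⊤ →
      (∀ i < k, N i ≤ N (i + 1) ∧ ((N i).subgroupOf (N (i + 1))).Normal ∧
        ((∃ w ∈ W, ∀ f : FreeGroup ℕ →* N (i + 1), (f w : G) ∈ N i) ∨
          ((N i).relIndex (N (i + 1)) ≠ 0 ∧ (∀ x ∈ N (i + 1), ∃ l : ℕ, x ^ (2 ^ l) ∈ N i) ∧
            ∀ L : Subgroup G, N i ≤ L → L ≤ N (i + 1) →
              ∃ s : Finset G, s.card ≤ r ∧ L = N i ⊔ Subgroup.closure (s : Set G)) ∨
          (∃ (R M : Type u) (_ : CommRing R) (_ : AddCommGroup M) (_ : Module R M) (v : Fin n → M)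
            (φ : N (i + 1) →* Module.End R M), Submodule.span R (Set.range v) = ⊤ ∧
              ∀ x, φ x = 1 ↔ (x : G) ∈ N i) ∨
          (∃ (A : Type u) (_ : Ring A) (φ : N (i + 1) →* A) (j : ℕ) (a : Equiv.Perm (Fin j) → ℤ),
            j ≤ m ∧ a 1 = 1 ∧
            (∀ y : Fin j → N (i + 1), ∑ σ, a σ • φ (List.ofFn fun l => y (σ l)).prod = 0) ∧
            ∀ x, φ x = 1 ↔ (x : G) ∈ N i))) →
      ∀ x : G, x ^ F = 1 :=
  Pool.Agent.H30.PI.ExpL.exponentL e r n m k he W hW

end Pool.Agent.Results.MP_cc8356_al.ExponentBound
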