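import Mathlib
import Pool.Agent.H40.RG.Main

set_option autoImplicit false

namespace Pool.Agent.Results.MP_cc8356_al.RankGradient

/-- Let `G` be a finite 2-group, `U` a normal subgroup and `x` an element of order `2 ^ a` modulo `U`
such that `y` and `y ^ 5` are conjugate in `G` for all `y` in the coset `x U` (which holds if `G` is
rational). Then `2 ^ a d(U) ≤ 4 d(G) |G : U| + 4 ^ a (log₂ |G : U| + 2 - a)`, where `d` is the smallest
number of generators. -/
theorem result (G : Type) [Group G] [Finite G] (hp : IsPGroup 2 G)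
    (U : Subgroup G) [U.Normal] (x : G) (a : ℕ)
    (hx : orderOf (x : G ⧸ U) = 2 ^ a)
    (hc : ∀ u ∈ U, IsConj (x * u) ((x * u) ^ 5)) :
    2 ^ a * Group.rank U ≤
      4 * Group.rank G * U.index + 4 ^ a * (Nat.log 2 U.index + 2 - a) := by
  by_cases ha : 2 ≤ a
  · refine Pool.Agent.H40.RG.bound hp x a ha hx fun u hu => ?_
    obtain ⟨g, hg⟩ := isConj_iff.1 (hc u hu)
    exact ⟨g, hg⟩
  · have h1 : Group.rank U ≤ U.index * Group.rank G := Subgroup.rank_le_index_mul_rank U
    have h2 : 2 ^ a ≤ 4 := by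
      have h3 : 2 ^ a ≤ 2 ^ 1 := Nat.pow_le_pow_right (by norm_num) (by omega)
      omega
    calc 2 ^ a * Group.rank U ≤ 4 * (U.index * Group.rank G) := Nat.mul_le_mul h2 h1
      _ = 4 * Group.rank G * U.index := by ring
      _ ≤ 4 * Group.rank G * U.index + 4 ^ a * (Nat.log 2 U.index + 2 - a) :=
          Nat.le_add_right _ _

end Pool.Agent.Results.MP_cc8356_al.RankGradient
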