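import Mathlib
import Pool.Agent.H79.SelfCent

set_option autoImplicit false

namespace Pool.Agent.Results.MP_cc8356_al.SelfCentralizing

/-- For all `m`, `n` there is a bound for the order of the finite rational 2-groups `G` which have an
abelian normal subgroup `A` containing its centralizer and a subgroup `X` of order at most `m` such
that at most `n` elements of `A` have order at most 2 and commute with all elements of `X`. -/
theorem result (m n : ℕ) :
    ∃ B : ℕ, ∀ (G : Type) [Group G] [Finite G],
      IsPGroup 2 G →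
      (∀ x y : G, Subgroup.zpowers x = Subgroup.zpowers y → IsConj x y) →
      ∀ A X : Subgroup G, A.Normal →
      (∀ a ∈ A, ∀ b ∈ A, a * b = b * a) →
      (∀ g : G, (∀ a ∈ A, g * a = a * g) → g ∈ A) →
      Nat.card X ≤ m →
      Nat.card {a : G // a ∈ A ∧ a ^ 2 = 1 ∧ ∀ x ∈ X, x * a = a * x} ≤ n →
      Nat.card G ≤ B := by
  refine ⟨_, fun G _ _ hp hrat A X hAn hA hAc hm hn =>
    Pool.Agent.H79.SelfCent.card_le' hp ?_ A X hAn hA hAc m n hm hn⟩
  intro x
  apply hrat
  have hcop : Nat.Coprime 3 (orderOf x) := by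
    obtain ⟨k, hk⟩ := IsPGroup.iff_orderOf.mp hp x
    rw [hk]
    exact Nat.Coprime.pow_right k (by norm_num)
  obtain ⟨k, hk⟩ := exists_pow_eq_self_of_coprime hcop
  apply le_antisymm
  · rw [Subgroup.zpowers_le]
    have h1 : (x ^ 3) ^ k ∈ Subgroup.zpowers (x ^ 3) := Subgroup.npow_mem_zpowers _ _
    rwa [hk] at h1
  · rw [Subgroup.zpowers_le]
    exact Subgroup.npow_mem_zpowers _ _

end Pool.Agent.Results.MP_cc8356_al.SelfCentralizing
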