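import Mathlib
import Pool.Agent.H64.RE.FinS

set_option autoImplicit false

namespace Pool.Agent.Results.MP_cc8356_al.SubnormalSeries

universe u

/-- For all `d`, `r`, `n`, `m`, `k` and `e ≥ 2` there is a bound for the order of the finite `d`-generated
2-groups `G` in which every `x` is conjugate to `x ^ e` (for instance, for odd `e`, rational 2-groups)
having a series `1 = N 0 ≤ N 1 ≤ ... ≤ N k = G` of subgroups, `N i` normal in `N (i + 1)`, such that
each factor `N (i + 1) / N i` is abelian, or has all its subgroups generated by `r` elements, or acts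
faithfully and linearly on a module with `n` generators over some commutative ring `R`, or embeds into
some ring `A` and satisfies there a multilinear identity of degree at most `m` with the coefficient 1
at one monomial. -/
theorem result (d e r n m k : ℕ) (he : 2 ≤ e) :
    ∃ C : ℕ, ∀ (G : Type) [Group G] [Finite G],
      IsPGroup 2 G →
      (∃ s : Finset G, s.card ≤ d ∧ Subgroup.closure (s : Set G) = ⊤) →
      (∀ x : G, IsConj x (x ^ e)) →
      ∀ N : ℕ → Subgroup G, N 0 = ⊥ → N k = ⊤ →
      (∀ i < k, N i ≤ N (i + 1) ∧ ((N i).subgroupOf (N (i + 1))).Normal ∧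
        (⁅N (i + 1), N (i + 1)⁆ ≤ N i ∨
          (∀ L : Subgroup G, N i ≤ L → L ≤ N (i + 1) →
            ∃ s : Finset G, s.card ≤ r ∧ L = N i ⊔ Subgroup.closure (s : Set G)) ∨
          (∃ (R M : Type u) (_ : CommRing R) (_ : AddCommGroup M) (_ : Module R M) (v : Fin n → M)
            (φ : N (i + 1) →* Module.End R M), Submodule.span R (Set.range v) = ⊤ ∧
              ∀ x, φ x = 1 ↔ (x : G) ∈ N i) ∨
          (∃ (A : Type u) (_ : Ring A) (φ : N (i + 1) →* A) (j : ℕ) (a : Equiv.Perm (Fin j) → ℤ),
            j ≤ m ∧ a 1 = 1 ∧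
            (∀ y : Fin j → N (i + 1), ∑ σ, a σ • φ (List.ofFn fun l => y (σ l)).prod = 0) ∧
            ∀ x, φ x = 1 ↔ (x : G) ∈ N i))) →
      Nat.card G ≤ C :=
  Pool.Agent.H64.RE.subnormal d e r n m k he

end Pool.Agent.Results.MP_cc8356_al.SubnormalSeries
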